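import Pool.Agent.Helper61.QG.GoalsV

/-!
PROJECT QS, packet CVX: existence of the operator versions.
-/

set_option autoImplicit false

open Set
open scoped Matrix

namespace Pool.Agent.Helper35.QG

open Pool.Agent.Helper61 Pool.Agent.Helper61.QG
open Pool.Agent.Helper61.QS (V En)

/-- a family of linear maps, smooth when evaluated, is smooth -/
theorem mk_clm {E F G : Type} [NormedAddCommGroup E] [NormedSpace ℝ E] [NormedAddCommGroup F]
    [NormedSpace ℝ F] [FiniteDimensional ℝ F] [NormedAddCommGroup G] [NormedSpace ℝ G]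
    (f : E → F → G) (hl : ∀ P, IsLinearMap ℝ (f P))
    (hs : ∀ y, ContDiff ℝ 3 (fun P => f P y)) :
    ∃ f' : E → F →L[ℝ] G, (∀ P y, f' P y = f P y) ∧ ContDiff ℝ 3 f' := by
  refine ⟨fun P => LinearMap.toContinuousLinearMap (IsLinearMap.mk' (f P) (hl P)),
    fun P y => rfl, ?_⟩
  rw [contDiff_clm_apply_iff]
  exact hs

/-- a family of bilinear maps, smooth when evaluated, is smooth -/
theorem mk_clm2 {E F F' G : Type} [NormedAddCommGroup E] [NormedSpace ℝ E] [NormedAddCommGroup F]
    [NormedSpace ℝ F] [FiniteDimensional ℝ F] [NormedAddCommGroup F']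
    [NormedSpace ℝ F'] [FiniteDimensional ℝ F'] [NormedAddCommGroup G] [NormedSpace ℝ G]
    (f : E → F → F' → G) (hl : ∀ P a, IsLinearMap ℝ (f P a))
    (hr : ∀ P b, IsLinearMap ℝ (fun a => f P a b))
    (hs : ∀ a b, ContDiff ℝ 3 (fun P => f P a b)) :
    ∃ f' : E → F →L[ℝ] F' →L[ℝ] G, (∀ P a b, f' P a b = f P a b) ∧ ContDiff ℝ 3 f' := by
  obtain ⟨f', h1, h2⟩ := mk_clm
    (fun P a => (LinearMap.toContinuousLinearMap (IsLinearMap.mk' (f P a) (hl P a)) : F' →L[ℝ] G))
    (by
      intro P
      constructor
      · intro a a'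
        ext b
        exact (hr P b).map_add a a'
      · intro c a
        ext b
        exact (hr P b).map_smul c a)
    (by
      intro a
      rw [contDiff_clm_apply_iff]
      exact fun b => hs a b)
  refine ⟨f', fun P a b => ?_, h2⟩
  rw [h1]
  rfl

/-- the operator of a matrix -/
noncomputable def opM (n : ℕ) (A : Matrix (Fin n) (Fin n) ℝ) : En n :=
  LinearMap.toContinuousLinearMap
    (IsLinearMap.mk' (fun v : V n => vE n (A *ᵥ (vE n).symm v)) (by
      constructor
      · intro v w
        rw [map_add, Matrix.mulVec_add, map_add]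
      · intro c v
        rw [map_smul, Matrix.mulVec_smul, map_smul]))

theorem opM_apply (n : ℕ) (A : Matrix (Fin n) (Fin n) ℝ) (v : V n) :
    opM n A v = vE n (A *ᵥ (vE n).symm v) := rfl

theorem opM_vE (n : ℕ) (A : Matrix (Fin n) (Fin n) ℝ) (v : Fin n → ℝ) :
    opM n A (vE n v) = vE n (A *ᵥ v) := by
  rw [opM_apply, ContinuousLinearEquiv.symm_apply_apply]

theorem opM_smooth {E : Type} [NormedAddCommGroup E] [NormedSpace ℝ E] {n : ℕ}
    (e : E → Matrix (Fin n) (Fin n) ℝ) (he : ∀ i j, ContDiff ℝ 3 (fun P => e P i j)) :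
    ContDiff ℝ 3 (fun P => opM n (e P)) := by
  rw [contDiff_clm_apply_iff]
  intro v
  simp only [opM_apply]
  refine (vE n).contDiff.comp ?_
  rw [contDiff_pi]
  intro i
  have h : (fun P => (e P *ᵥ (vE n).symm v) i)
      = fun P => ∑ j, e P i j * (vE n).symm v j := by
    funext P
    rfl
  rw [h]
  refine ContDiff.sum fun j _ => ?_
  exact (he i j).mul contDiff_const

/-- CVX. -/
theorem goalCVX : G_CVX := by
  intro WW _ _ _ n e B gM γ he hB hBl hg hgl hγ hγl
  obtain ⟨B', hB1, hB2⟩ := mk_clm (fun P u => opM n (B P u))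
    (by
      intro P
      constructor
      · intro u u'
        ext1 v
        rw [_root_.add_apply, opM_apply, opM_apply, opM_apply, (hBl P).map_add,
          Matrix.add_mulVec, map_add]
      · intro c u
        ext1 v
        rw [_root_.smul_apply, opM_apply, opM_apply, (hBl P).map_smul,
          Matrix.smul_mulVec, map_smul])
    (fun u => opM_smooth (fun P => B P u) (fun i j => hB u i j))
  obtain ⟨g', hg1, hg2⟩ := mk_clm2 gM (fun P u => (hgl P u).1) (fun P u => (hgl P u).2) hg
  obtain ⟨γ', hγ1, hγ2⟩ := mk_clm2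
    (fun (z : WW × V n) (a b : V n) => γ z.1 ((vE n).symm z.2) ((vE n).symm a) ((vE n).symm b))
    (by
      intro z a
      constructor
      · intro b b'
        rw [map_add]
        exact ((hγl z.1 ((vE n).symm z.2) ((vE n).symm a)).1).map_add _ _
      · intro c b
        rw [map_smul]
        exact ((hγl z.1 ((vE n).symm z.2) ((vE n).symm a)).1).map_smul _ _)
    (by
      intro z b
      constructor
      · intro a a'
        rw [map_add]
        exact ((hγl z.1 ((vE n).symm z.2) ((vE n).symm b)).2).map_add _ _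
      · intro c a
        rw [map_smul]
        exact ((hγl z.1 ((vE n).symm z.2) ((vE n).symm b)).2).map_smul _ _)
    (by
      intro a b
      have h1 : ContDiff ℝ 3 (fun z : WW × V n => ((z.1, (vE n).symm z.2) : WW × (Fin n → ℝ))) :=
        contDiff_fst.prodMk ((vE n).symm.contDiff.comp contDiff_snd)
      exact (hγ ((vE n).symm a) ((vE n).symm b)).comp h1)
  refine ⟨fun P => opM n (e P), B', g', γ', ?_⟩
  constructor
  · intro P v
    exact opM_vE n (e P) v
  · intro P u v
    rw [hB1]
    exact opM_vE n (B P u) v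
  · exact hg1
  · intro P v a b
    rw [hγ1]
    simp only [ContinuousLinearEquiv.symm_apply_apply]
  · exact opM_smooth e he
  · exact hB2
  · exact hg2
  · exact hγ2

end Pool.Agent.Helper35.QG
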