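import Pool.Agent.Helper61.QG.GoalsV

/-!
PROJECT QS, packet CVS: splittings, back to matrices.
-/

set_option autoImplicit false

open Set
open scoped Matrix

namespace Pool.Agent.Helper35.QG

open Pool.Agent.Helper61 Pool.Agent.Helper61.QG
open Pool.Agent.Helper61.QS (V En rk)

/-- the matrix of an operator -/
noncomputable def toM {n : ℕ} (A : En n) : Matrix (Fin n) (Fin n) ℝ :=
  Matrix.of fun i l => ((vE n).symm (A (vE n (Pi.single l 1)))) i

theorem toM_mulVec {n : ℕ} (A : En n) (v : Fin n → ℝ) :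
    toM A *ᵥ v = (vE n).symm (A (vE n v)) := by
  have h1 : v = ∑ l, v l • (Pi.single l (1 : ℝ) : Fin n → ℝ) := by
    funext i
    rw [Finset.sum_apply]
    simp [Pi.single_apply]
  funext i
  have h2 : (toM A *ᵥ v) i = ∑ l, ((vE n).symm (A (vE n (Pi.single l 1)))) i * v l := rfl
  rw [h2]
  conv_rhs => rw [h1]
  simp only [map_sum, map_smul, Finset.sum_apply, Pi.smul_apply, smul_eq_mul]
  exact Finset.sum_congr rfl fun l _ => mul_comm _ _

theorem toM_vE {n : ℕ} (A : En n) (v : Fin n → ℝ) :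
    vE n (toM A *ᵥ v) = A (vE n v) := by
  rw [toM_mulVec, ContinuousLinearEquiv.apply_symm_apply]

theorem eq_toM {n : ℕ} (A : En n) (M : Matrix (Fin n) (Fin n) ℝ)
    (h : ∀ v, A (vE n v) = vE n (M *ᵥ v)) : toM A = M := by
  apply Matrix.ext_of_mulVec_single
  intro i
  rw [toM_mulVec, h, ContinuousLinearEquiv.symm_apply_apply]

theorem toM_mul {n : ℕ} (A B : En n) : toM (A * B) = toM A * toM B := by
  apply eq_toM
  intro v
  rw [← Matrix.mulVec_mulVec, toM_vE, toM_vE]
  rfl

theorem toM_zero {n : ℕ} : toM (0 : En n) = 0 := by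
  apply eq_toM
  intro v
  rw [Matrix.zero_mulVec, map_zero]
  rfl

theorem toM_sum {n : ℕ} {ι : Type} (s : Finset ι) (A : ι → En n) :
    toM (∑ j ∈ s, A j) = ∑ j ∈ s, toM (A j) := by
  apply eq_toM
  intro v
  rw [Matrix.sum_mulVec, map_sum]
  simp only [toM_vE]
  exact _root_.sum_apply _ _ _

theorem toM_continuous (n : ℕ) : Continuous (fun A : En n => toM A) := by
  refine continuous_matrix fun i l => ?_
  have h : Continuous fun A : En n => (vE n).symm (A (vE n (Pi.single l 1))) :=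
    (vE n).symm.continuous.comp
      (ContinuousLinearMap.apply ℝ (V n) (vE n (Pi.single l 1))).continuous
  exact (continuous_apply i).comp h

theorem inner_vE {n : ℕ} (a b : Fin n → ℝ) : inner ℝ (vE n a) (vE n b) = a ⬝ᵥ b := by
  have h : inner ℝ (vE n a) (vE n b) = ∑ i, a i * b i := by
    change inner ℝ (WithLp.toLp 2 a : EuclideanSpace ℝ (Fin n)) (WithLp.toLp 2 b) = _
    rw [PiLp.inner_apply]
    refine Finset.sum_congr rfl fun i _ => ?_
    simp [mul_comm]
  rw [h]
  rfl

theorem toM_star {n : ℕ} (A : En n) : toM (star A) = (toM A)ᵀ := by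
  apply eq_toM
  intro v
  apply ext_inner_right ℝ
  intro w
  obtain ⟨w, rfl⟩ := (vE n).surjective w
  have h1 : inner ℝ ((star A) (vE n v)) (vE n w) = inner ℝ (vE n v) (A (vE n w)) :=
    ContinuousLinearMap.adjoint_inner_left A (vE n w) (vE n v)
  rw [h1, ← toM_vE, inner_vE, inner_vE, Matrix.mulVec_transpose, Matrix.dotProduct_mulVec]

theorem toM_rank {n : ℕ} (A : En n) : (toM A).rank = rk A := by
  unfold Matrix.rank Pool.Agent.Helper61.QS.rk
  have h : LinearMap.range (A : V n →ₗ[ℝ] V n)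
      = Submodule.map ((vE n).toLinearEquiv : (Fin n → ℝ) →ₗ[ℝ] V n)
        (LinearMap.range (toM A).mulVecLin) := by
    ext x
    rw [Submodule.mem_map]
    constructor
    · rintro ⟨y, rfl⟩
      refine ⟨toM A *ᵥ ((vE n).symm y), ⟨(vE n).symm y, rfl⟩, ?_⟩
      have := toM_vE A ((vE n).symm y)
      rw [ContinuousLinearEquiv.apply_symm_apply] at this
      exact this
    · rintro ⟨y, ⟨z, rfl⟩, rfl⟩
      exact ⟨vE n z, (toM_vE A z).symm⟩
  rw [h]
  exact (LinearEquiv.finrank_map_eq (vE n).toLinearEquiv _).symm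

/-- CVS. -/
theorem goalCVS : G_CVS := by
  intro WW _ _ M n e e' he hsp
  obtain ⟨N, f, h1, h2, h3, h4, h5⟩ := hsp
  refine ⟨N, fun j P => toM (f j P), ?_, ?_, ?_, ?_, ?_⟩
  · intro j
    exact (toM_continuous n).comp_continuousOn (h1 j)
  · intro j g hg P hP
    beta_reduce
    rw [h2 j g hg P hP]
  · intro j P hP
    obtain ⟨a, b, c⟩ := h3 j P hP
    refine ⟨?_, ?_, ?_⟩
    · rw [← toM_mul, a]
    · rw [← toM_star, b]
    · rw [toM_rank]
      exact c
  · intro i j hij P hP
    rw [← toM_mul, h4 i j hij P hP, toM_zero]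
  · intro P hP
    rw [← toM_sum, h5 P hP]
    exact eq_toM _ _ (he P)

end Pool.Agent.Helper35.QG
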