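import Pool.Agent.Helper61.QG.GoalsV
import Pool.Agent.Helper35.QG.CVX

/-!
PROJECT QS, packet CVST: the standard metrics and the flat planes.
-/

set_option autoImplicit false

open Set
open scoped Matrix

namespace Pool.Agent.Helper35.QG

open Pool.Agent.Helper61 Pool.Agent.Helper61.QG

/-- CVST. -/
theorem goalCVST (h : G_CVI) : G_CVST := by
  intro m gM g' hg
  constructor
  · rintro ⟨φ, H, K, hφ, hφ0, hH, hK, hHl, hKl, hid, hcase⟩
    obtain ⟨H', hH1, hH2⟩ := mk_clm2 H (fun p u => (hHl p u).1) (fun p u => (hHl p u).2) hH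
    obtain ⟨K', hK1, hK2⟩ := mk_clm2 K (fun p u => (hKl p u).1) (fun p u => (hKl p u).2) hK
    refine ⟨φ, H', K', hφ, hφ0, hH2, hK2, ?_, ?_⟩
    · intro P hP u hu u' hu'
      rw [hg, hH1, hK1]
      exact hid P hP u hu u' hu'
    · rcases hcase with hc | ⟨hc1, hc2⟩
      · exact Or.inl hc
      · right
        constructor
        · intro ζ hζ q hq a b
          rw [hK1, hK1]
          exact hc1 ζ hζ q hq a b
        · intro q hq
          rw [hK1]
          exact hc2 q hq
  · intro hf x h1 h2 h3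
    have h4 := hf x h1 h2 h3
    have h5 := h QM.R4 QM.R4 (ContinuousLinearEquiv.refl ℝ QM.R4) (QM.gB gM QM.pol)
      (QS.gB g' QS.pol) (by
        intro z a b
        exact (hg _ _ _).symm) x (1, 0, 0, 0) (0, 1, 0, 0) 0
    exact h5.1 h4

end Pool.Agent.Helper35.QG
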